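import Pool.Agent.Helper95.Lin.GoalsG
import Pool.Agent.Helper95.Lin.Basics
import Pool.Agent.Helper49.Abund.Mean1

/-! # Packet CARP: the powers of the Caratheodory volume are plurisubharmonic -/

open Complex Metric Set Filter Topology MeasureTheory
open scoped ContDiff ComplexConjugate ComplexOrder

namespace Pool.Agent.Helper87.Lin

open Pool.Agent.Helper95.Lin

theorem det_holo {b m : ℕ} {D : Set (Cn b)} (hD : IsOpen D) {V : Fin m → Cn b → Cn b}
    (hV : ∀ i, DifferentiableOn ℂ (V i) D) {f : Fin m → Cn b → ℂ} (hf : Adm D f) :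
    DifferentiableOn ℂ (fun z => (vm V f z).det) D := by
  have he : ∀ i j, DifferentiableOn ℂ (fun z => vm V f z i j) D := by
    intro i j
    have h1 := holo_fderiv hD (hf j).1
    exact h1.clm_apply (hV i)
  have : (fun z => (vm V f z).det) = fun z => ∑ σ : Equiv.Perm (Fin m),
      ((Equiv.Perm.sign σ : ℤ) : ℂ) * ∏ i, vm V f z (σ i) i := by
    funext z
    rw [Matrix.det_apply']
  rw [this]
  refine DifferentiableOn.fun_sum fun σ _ => ?_
  refine DifferentiableOn.const_mul ?_ _
  intro z hz
  exact (HasFDerivWithinAt.finsetProd (g := fun i z => vm V f z (σ i) i)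
    fun i _ => (he (σ i) i z hz).hasFDerivWithinAt).differentiableWithinAt

theorem carp (hC : S_CARC) : S_CARP := by
  intro b m D hD V hV s hs x hx e he
  obtain ⟨hbdd, hnn, hcont⟩ := hC D hD V hV
  -- the function on the circle is integrable
  have hmapC : ContinuousOn (fun ζ : ℂ => x + ζ • e) (closedBall 0 1) := by fun_prop
  have hmaps : MapsTo (fun ζ : ℂ => x + ζ • e) (closedBall 0 1) D := by
    intro ζ hζ
    exact he ζ (by simpa using hζ)
  have hcar : ContinuousOn (fun ζ : ℂ => carF D V (x + ζ • e) ^ s) (closedBall 0 1) := by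
    have h1 := hcont.comp hmapC hmaps
    exact h1.rpow_const fun ζ _ => Or.inr hs.le
  have hint : CircleIntegrable (fun ζ : ℂ => carF D V (x + ζ • e) ^ s) 0 1 := by
    refine ContinuousOn.circleIntegrable zero_le_one ?_
    exact hcar.mono sphere_subset_closedBall
  set A := Real.circleAverage (fun ζ : ℂ => carF D V (x + ζ • e) ^ s) 0 1 with hA
  -- the inequality for an admissible family
  have key : ∀ f : Fin m → Cn b → ℂ, Adm D f → ‖(vm V f x).det‖ ^ s ≤ A := by
    intro f hf
    have hdet := det_holo hD hV hf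
    set h : ℂ → ℂ := fun ζ => (vm V f (x + ζ • e)).det with hh
    have hU : IsOpen {ζ : ℂ | x + ζ • e ∈ D} := hD.preimage (by fun_prop)
    have hhU : DifferentiableOn ℂ h {ζ : ℂ | x + ζ • e ∈ D} := by
      refine hdet.comp (f := fun ζ : ℂ => x + ζ • e) ?_ fun ζ hζ => hζ
      exact Differentiable.differentiableOn (by fun_prop)
    have han : AnalyticOnNhd ℂ h (closedBall 0 1) :=
      (hhU.analyticOnNhd hU).mono fun ζ hζ => hmaps hζ
    have h1 := Pool.Agent.Helper49.Abund.circle_mean one_pos han hs
    have h0 : h 0 = (vm V f x).det := by simp [hh]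
    rw [h0] at h1
    refine h1.trans ?_
    refine Real.circleAverage_mono ?_ hint ?_
    · refine ContinuousOn.circleIntegrable zero_le_one ?_
      exact (han.continuousOn.norm.rpow_const fun ζ _ => Or.inr hs.le).mono
        sphere_subset_closedBall
    · intro ζ hζ
      rw [abs_one] at hζ
      have hζD : x + ζ • e ∈ D := hmaps (sphere_subset_closedBall hζ)
      refine Real.rpow_le_rpow (norm_nonneg _) ?_ hs.le
      exact le_csSup (hbdd _ hζD) ⟨f, hf, rfl⟩
  -- take the supremum
  have hAnn : 0 ≤ A := Real.circleAverage_nonneg_of_nonneg fun ζ hζ => by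
    rw [abs_one] at hζ
    exact Real.rpow_nonneg (hnn _ (hmaps (sphere_subset_closedBall hζ))) _
  have hle : carF D V x ≤ A ^ s⁻¹ := by
    refine csSup_le ?_ ?_
    · exact ⟨_, fun _ _ => 0, fun j => ⟨by fun_prop, by simp⟩, rfl⟩
    · rintro r ⟨f, hf, rfl⟩
      have h1 := Real.rpow_le_rpow (by positivity) (key f hf) (inv_nonneg.2 hs.le)
      rwa [Real.rpow_rpow_inv (norm_nonneg _) hs.ne'] at h1
  have h2 := Real.rpow_le_rpow (hnn x hx) hle hs.le
  rwa [Real.rpow_inv_rpow hAnn hs.ne'] at h2

end Pool.Agent.Helper87.Lin
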