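import Pool.Agent.Helper95.Lin.GoalsD
import Pool.Agent.Helper95.Lin.Basics

/-! # Packet DEP: complex linear relations between commuting complete fields -/

open Complex Metric Set Filter Topology MeasureTheory
open scoped ContDiff ComplexConjugate ComplexOrder

namespace Pool.Agent.Helper87.Lin

open Pool.Agent.Helper95.Lin

theorem dep (hDFL : S_DFL) (hPSI : S_PSI) : S_DEP := by
  intro b D hD hbd V W φ ψ hV hW hφ hψ hbr z hz hWz
  have hWW : ∀ x ∈ D, brV W W x = 0 := fun x _ => by simp [brV]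
  have h1 : ∀ s, V (ψ s z) = fderiv ℂ (ψ s) z (V z) := fun s =>
    hDFL D hD V W ψ hV hW hψ hbr s z hz
  have h2 : ∀ s, W (ψ s z) = fderiv ℂ (ψ s) z (W z) := fun s =>
    hDFL D hD W W ψ hW hW hψ hWW s z hz
  have h3 : ∀ s, W (ψ s z) = I • V (ψ s z) := fun s => by
    rw [h2, hWz, map_smul, h1]
  have hη : ∀ t ∈ (univ : Set ℝ), ψ t z ∈ D ∧
      HasDerivAt (fun t => ψ t z) (I • V (ψ t z)) t := fun t _ =>
    ⟨hψ.maps t z hz, by rw [← h3]; exact hψ.ode z hz t⟩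
  have hΨ : ∀ ζ : ℂ, HasDerivAt (fun ζ : ℂ => φ ζ.re (ψ ζ.im z))
      (V (φ ζ.re (ψ ζ.im z))) ζ := fun ζ =>
    hPSI D hD V φ hV hφ univ isOpen_univ (fun t => ψ t z) hη ζ (mem_univ _)
  have hdiff : Differentiable ℂ (fun ζ : ℂ => φ ζ.re (ψ ζ.im z)) := fun ζ =>
    (hΨ ζ).differentiableAt
  have hb : Bornology.IsBounded (range fun ζ : ℂ => φ ζ.re (ψ ζ.im z)) := by
    refine hbd.subset ?_
    rintro _ ⟨ζ, rfl⟩
    exact hφ.maps _ _ (hψ.maps _ _ hz)
  have hconst : (fun ζ : ℂ => φ ζ.re (ψ ζ.im z)) = fun _ => φ (0 : ℂ).re (ψ (0 : ℂ).im z) := by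
    funext ζ
    exact hdiff.apply_eq_apply_of_bounded hb ζ 0
  have h4 := hΨ 0
  rw [hconst] at h4
  have h5 := h4.unique (hasDerivAt_const (0 : ℂ) _)
  simpa [hψ.zero z hz, hφ.zero z hz] using h5

end Pool.Agent.Helper87.Lin
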