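import Pool.Agent.Helper95.Lin.GoalsJ

/-! # Packet DKLOC: properness in the local form -/

open Complex Metric Set Filter Topology MeasureTheory
open scoped ContDiff ComplexConjugate ComplexOrder Manifold

namespace Pool.Agent.Helper87.Lin

open Pool.Agent.Helper16.Abund Pool.Agent.Helper92.Orb Pool.Agent.Helper95.Lin

theorem dkloc : S_DKLOC := by
  intro b D hD Γ _ _ h x
  have : LocallyCompactSpace (TorTube hD 1) := (tube D hD 1).isOpen.locallyCompactSpace
  obtain ⟨K, hK, hx⟩ := exists_compact_mem_nhds x
  exact ⟨K, hx, h K hK⟩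

end Pool.Agent.Helper87.Lin
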